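import Pool.Agent.Helper317.Beta.Final

/-!
Kaplansky's two test statements for countable torsion abelian groups do not imply `Π¹₁`
comprehension: they hold in every beta-model (this uses Ulm's theorem, which is proved), and some
countable beta-model does not satisfy `Π¹₁` comprehension.
-/

namespace Pool.Agent.Results.MP_660a49_lc.NoReversal

open Pool.Agent.Helper317.SOA Pool.Agent.Helper317.Kap

/-- `RCA₀ + (a) + (b)` does not prove `Π¹₁` comprehension, not even with arithmetical
comprehension added and not even with beta-models only. -/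
theorem result :
    (∀ S : Set (Set ℕ), BetaModel S → RCA0 (omega S) ∧ ACA (omega S) ∧ StmtA S ∧ StmtB S) ∧
      ∃ S : Set (Set ℕ), S.Countable ∧ BetaModel S ∧ RCA0 (omega S) ∧ ACA (omega S) ∧
        StmtA S ∧ StmtB S ∧ ¬ Pi11CA (omega S) := by
  have h : ∀ S : Set (Set ℕ), BetaModel S →
      RCA0 (omega S) ∧ ACA (omega S) ∧ StmtA S ∧ StmtB S := fun S hS =>
    ⟨Pool.Agent.Helper317.Beta.rca_of_aca (Pool.Agent.Helper317.Beta.aca_of_beta hS),
      Pool.Agent.Helper317.Beta.aca_of_beta hS, Pool.Agent.Helper317.Beta.beta_stmts hS⟩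
  obtain ⟨S, hc, hS, hn⟩ := Pool.Agent.Helper317.Beta.exists_beta
  obtain ⟨h1, h2, h3, h4⟩ := h S hS
  exact ⟨h, S, hc, hS, h1, h2, h3, h4, hn⟩

end Pool.Agent.Results.MP_660a49_lc.NoReversal
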